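import Pool.Agent.MP_7bf9b2_an.Defs

/-!
Definitions for the statement on the entropy of Mather sets of `C^k`-generic Lagrangians.
-/

namespace Pool.Agent.MP_7bf9b2_an

open scoped Manifold ContDiff Topology
open Set Filter MeasureTheory

section Flows

variable {X : Type} [TopologicalSpace X] [MeasurableSpace X]

/-- The Mather set: closure of the union of the supports of all minimizing measures. -/
def Mather (Φ : Flow ℝ X) (ℓ : X → ℝ) : Set X :=
  closure (⋃ μ ∈ {μ : Measure X | IsMin Φ ℓ μ}, μ.support)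

/-- The Mather set is nonempty and compact, and the time-one map has zero topological entropy on
it: for every neighbourhood `W` of the diagonal, the least number of orbits that `W`-shadow all
orbits of length `n` of the Mather set has exponential growth rate `0`. -/
def ZeroEnt (Φ : Flow ℝ X) (ℓ : X → ℝ) : Prop :=
  (Mather Φ ℓ).Nonempty ∧ IsCompact (Mather Φ ℓ) ∧
    ∀ W ∈ 𝓝ˢ (diagonal X), Dynamics.coverEntropyEntourage (Φ 1) (Mather Φ ℓ) W = 0

end Flows

section Manifold

variable (V : Type) [NormedAddCommGroup V] [NormedSpace ℝ V] (M : Type) [TopologicalSpace M]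
  [ChartedSpace V M]

/-- The space `C^k(M × ℝ/ℤ)` of potentials, `k` a natural number or `∞`. -/
structure PotK (k : ℕ∞) where
  toFun : M × Ci → ℝ
  smooth : ContMDiff (𝓘(ℝ, V).prod 𝓘(ℝ, ℝ)) 𝓘(ℝ, ℝ) k fun p : M × ℝ => toFun (p.1, cl p.2)

variable {V M}

/-- A potential read in the chart at `x₀`. -/
noncomputable def PotK.loc {k : ℕ∞} (f : PotK V M k) (x₀ : M) (p : V × ℝ) : ℝ :=
  f.toFun ((chartAt V x₀).symm p.1, cl p.2)

/-- Derivatives of order `≤ j` of `F` and `G` are `ε`-close on `K`. -/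
def CjClose {W : Type} [NormedAddCommGroup W] [NormedSpace ℝ W] (j : ℕ) (K : Set W) (ε : ℝ)
    (F G : W → ℝ) : Prop :=
  ∀ p ∈ K, ∀ i : ℕ, i ≤ j → ‖iteratedFDeriv ℝ i F p - iteratedFDeriv ℝ i G p‖ < ε

/-- The `C^k` topology: generated by `ε`-closeness of the derivatives of order `≤ j`, for finite
`j ≤ k`, on compact sets in charts. -/
instance (k : ℕ∞) : TopologicalSpace (PotK V M k) :=
  TopologicalSpace.generateFrom
    {N | ∃ (f : PotK V M k) (x₀ : M) (j : ℕ) (K : Set (V × ℝ)) (ε : ℝ), (j : ℕ∞) ≤ k ∧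
      IsCompact K ∧ K ⊆ (chartAt V x₀).target ×ˢ univ ∧ 0 < ε ∧
      N = {g | CjClose j K ε (g.loc x₀) (f.loc x₀)}}

end Manifold

end Pool.Agent.MP_7bf9b2_an
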